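import Pool.Agent.Helper52.KP.StG

/-!
Project KP (MP_26be5b_ag): functions in `Hol` are holomorphic along holomorphic maps.
-/

set_option autoImplicit false

namespace Pool.Agent.Helper26.KP

open Pool.Agent.Helper52.KP
open Pool.Agent.Helper67.NO MeasureTheory Filter
open scoped ContDiff ComplexOrder Topology

universe u

theorem hHLC (hLFT : StLFT.{u}) (hORB : StORB.{u}) : StHLC.{u} := by
  intro g _ _ _ _ x₀ hx0 hnil p V hV Ψ hΨ hOrb k f hf z₀ hz₀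
  obtain ⟨X, hX⟩ := (hORB g).2.2.2.2.2.1 (Ψ z₀)
  obtain ⟨V', ξ, hVo, hz', hsub, hξ, hξ0, hchart⟩ :=
    hLFT g x₀ hx0 hnil p V hV Ψ hΨ hOrb z₀ hz₀ _ X hX
  have hdiff : Differentiable ℂ (fun w : Fin (rk (Ψ z₀)) → ℂ =>
      f ⟨chart (Ψ z₀) X w, Orb.step _ _ (hOrb z₀ hz₀)⟩) :=
    hf.1 ⟨Ψ z₀, hOrb z₀ hz₀⟩ _ X
  have h1 : DifferentiableAt ℂ ξ z₀ := (hξ z₀ hz').differentiableAt (hVo.mem_nhds hz')
  have h2 : DifferentiableAt ℂ (fun z =>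
      f ⟨chart (Ψ z₀) X (ξ z), Orb.step _ _ (hOrb z₀ hz₀)⟩) z₀ :=
    DifferentiableAt.comp (g := fun w : Fin (rk (Ψ z₀)) → ℂ =>
      f ⟨chart (Ψ z₀) X w, Orb.step _ _ (hOrb z₀ hz₀)⟩) z₀ (hdiff (ξ z₀)) h1
  have h3 : (fun z => ext f (Ψ z)) =ᶠ[𝓝 z₀] (fun z =>
      f ⟨chart (Ψ z₀) X (ξ z), Orb.step _ _ (hOrb z₀ hz₀)⟩) := by
    filter_upwards [hVo.mem_nhds hz'] with z hz
    unfold ext
    rw [dif_pos (hOrb z (hsub hz))]
    congr 1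
    exact Subtype.ext (hchart z hz)
  exact (h2.congr_of_eventuallyEq h3).differentiableWithinAt

end Pool.Agent.Helper26.KP
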