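import Pool.Agent.Helper20.KP.StH

/-!
Project KP (MP_26be5b_ag): interpolation.
-/

set_option autoImplicit false

namespace Pool.Agent.Helper26.KP

open Pool.Agent.Helper20.KP
open MeasureTheory Filter Pool.Agent.Helper52.KP
open scoped Topology

/-- linear algebra: `V (adj (Vᵀ V) (Vᵀ f)) = det (Vᵀ V) f` -/
theorem vand {n : ℕ} (V : Matrix (Fin n) (Fin n) ℂ) (f : Fin n → ℂ) :
    V.mulVec ((V.transpose * V).adjugate.mulVec (V.transpose.mulVec f)) =
      (V.transpose * V).det • f := by
  rw [Matrix.adjugate_mul_distrib, Matrix.mulVec_mulVec, Matrix.mulVec_mulVec]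
  have h1 : V * (V.adjugate * V.transpose.adjugate) * V.transpose =
      (V.transpose * V).det • (1 : Matrix (Fin n) (Fin n) ℂ) := by
    rw [Matrix.mul_assoc, Matrix.mul_assoc, Matrix.adjugate_mul, ← Matrix.mul_assoc,
      Matrix.mul_adjugate,
      Matrix.smul_mul, Matrix.one_mul, smul_smul, Matrix.det_mul]
    rw [mul_comm]
  rw [h1, Matrix.smul_mulVec, Matrix.one_mulVec]

theorem hHLG (hSP : StHSP) (hOC : StHOC) : StHLG := by
  intro D hD Y Dc rd hFB l T hSL k F hF hHom
  obtain ⟨oc1, oc2, oc3, oc4, oc5, oc6, oc7, oc8, oc9⟩ := hOC D hD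
  have hlH := (oc3 l).1
  have hlO := (oc3 l).2
  have hG : ∀ j : ℕ, ∃ P : MvPolynomial (Fin D.m) ℂ, ∀ y, ev Dc y ≠ 0 →
      D.tc Y (fun x => F x * l x ^ j) y = ev P y := by
    intro j
    obtain ⟨P, _, hP⟩ := (hSP D hD Y Dc rd hFB).2 (k + 1 * j) (fun x => F x * l x ^ j)
      (oc4 F (fun x => l x ^ j) hF (oc6 _ hlH j)).2 (oc5 k (1 * j) F (fun x => l x ^ j) hHom
        (oc7 1 _ hlO j))
    exact ⟨P, hP⟩
  choose G hG using hG
  let M : Matrix (Fin rd) (Fin rd) (MvPolynomial (Fin D.m) ℂ) :=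
    Matrix.of fun i j : Fin rd => T (i + j)
  let A : Fin rd → MvPolynomial (Fin D.m) ℂ := M.adjugate.mulVec (fun j => G j)
  refine ⟨A, ?_⟩
  -- the identity on the dense set
  have hdense : ∀ x ∈ D.O, ev Dc (Y x) ≠ 0 →
      ev M.det (Y x) * F x = ∑ i : Fin rd, ev (A i) (Y x) * l x ^ (i : ℕ) := by
    intro x hx hDc
    obtain ⟨ρ, hρ, ζ, _, _, hζ⟩ := hFB.loc (Y x) hDc
    obtain ⟨hinj, hran⟩ := hζ (Y x) (Metric.mem_ball_self hρ)
    set y := Y x with hy
    set xs : Fin rd → (Fin D.N → ℂ) := fun i => ζ i y with hxs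
    have htc : ∀ g : (Fin D.N → ℂ) → ℂ, D.tc Y g y = ∑ i, g (xs i) := by
      intro g
      unfold OD.tc
      rw [hran, finsum_mem_range hinj, finsum_eq_sum_of_fintype]
    let V : Matrix (Fin rd) (Fin rd) ℂ := Matrix.of fun a i => l (xs a) ^ (i : ℕ)
    let fv : Fin rd → ℂ := fun a => F (xs a)
    have hM : M.map (MvPolynomial.eval y) = V.transpose * V := by
      ext i j
      rw [Matrix.mul_apply]
      simp only [M, V, Matrix.map_apply, Matrix.of_apply, Matrix.transpose_apply]
      have h1 := hSL.tr ((i : ℕ) + j) y hDc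
      rw [htc] at h1
      change ev (T ((i : ℕ) + j)) y = _
      rw [← h1]
      exact Finset.sum_congr rfl (fun a _ => pow_add _ _ _)
    have hGv : (fun j : Fin rd => ev (G j) y) = V.transpose.mulVec fv := by
      funext j
      rw [← hG j y hDc, htc]
      simp only [V, fv, Matrix.mulVec, dotProduct, Matrix.transpose_apply, Matrix.of_apply]
      exact Finset.sum_congr rfl (fun a _ => mul_comm _ _)
    have hdet : ev M.det y = (V.transpose * V).det := by
      rw [← hM]
      exact RingHom.map_det (MvPolynomial.eval y) M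
    have hA : (fun i : Fin rd => ev (A i) y) =
        (V.transpose * V).adjugate.mulVec (V.transpose.mulVec fv) := by
      have h2 : (V.transpose * V).adjugate = M.adjugate.map (MvPolynomial.eval y) := by
        rw [← hM]
        exact (RingHom.map_adjugate (MvPolynomial.eval y) M).symm
      rw [h2, ← hGv]
      funext i
      simp only [A, Matrix.mulVec, dotProduct, Matrix.map_apply, ev, map_sum, map_mul]
    have hxin : x ∈ D.fb Y y := ⟨hx, rfl⟩
    rw [hran] at hxin
    obtain ⟨a, ha⟩ := hxin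
    have hv := congrFun (vand V fv) a
    rw [← hA] at hv
    simp only [Matrix.mulVec, dotProduct, Pi.smul_apply, smul_eq_mul] at hv
    rw [hdet]
    have hxa : xs a = x := ha
    simp only [V, fv, Matrix.of_apply] at hv
    rw [hxa] at hv
    simp only [V]
    rw [← hv]
    exact Finset.sum_congr rfl (fun i _ => mul_comm _ _)
  -- continuity
  intro x hx
  have hYc : Continuous (fun x : Fin D.N → ℂ => Y x) := Y.continuous_of_finiteDimensional
  have hlc : Continuous (fun x : Fin D.N → ℂ => l x) := l.continuous_of_finiteDimensional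
  have hFc : ContinuousOn F D.O := oc1 F hF
  have hc : ContinuousOn (fun x => ev M.det (Y x) * F x -
      ∑ i : Fin rd, ev (A i) (Y x) * l x ^ (i : ℕ)) D.O := by
    apply ContinuousOn.sub
    · exact ((MvPolynomial.continuous_eval M.det).comp hYc).continuousOn.mul hFc
    · apply Continuous.continuousOn
      exact continuous_finset_sum _ (fun i _ =>
        ((MvPolynomial.continuous_eval (A i)).comp hYc).mul (hlc.pow _))
  set S := {x | x ∈ D.O ∧ ev Dc (Y x) ≠ 0} with hS
  have hxS : x ∈ closure S := hFB.dns Dc hFB.D0 hx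
  have hne : (𝓝[S] x).NeBot := mem_closure_iff_nhdsWithin_neBot.mp hxS
  have ht : Tendsto (fun x => ev M.det (Y x) * F x -
      ∑ i : Fin rd, ev (A i) (Y x) * l x ^ (i : ℕ)) (𝓝[S] x)
      (𝓝 (ev M.det (Y x) * F x - ∑ i : Fin rd, ev (A i) (Y x) * l x ^ (i : ℕ))) :=
    (hc x hx).mono_left (nhdsWithin_mono x (fun z hz => hz.1))
  have ht0 : Tendsto (fun x => ev M.det (Y x) * F x -
      ∑ i : Fin rd, ev (A i) (Y x) * l x ^ (i : ℕ)) (𝓝[S] x) (𝓝 0) := by
    apply tendsto_const_nhds.congr'
    filter_upwards [self_mem_nhdsWithin] with z hz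
    rw [hdense z hz.1 hz.2, sub_self]
  have := tendsto_nhds_unique ht ht0
  exact sub_eq_zero.mp this

end Pool.Agent.Helper26.KP
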