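import Pool.Agent.Helper52.KP.StM

/-!
Project KP (MP_26be5b_ag): convexity of the logarithm of the integral.
-/

set_option autoImplicit false

namespace Pool.Agent.Helper26.KP

open Pool.Agent.Helper52.KP
open MeasureTheory Filter
open scoped ContDiff ComplexOrder Topology

theorem cont_ev {m : ℕ} (P : MvPolynomial (Fin m) ℂ) : Continuous (fun z => ev P z) :=
  MvPolynomial.continuous_eval P

theorem cont_PPn {m N : ℕ} (n : ℕ) (s : Fin N → MvPolynomial (Fin m) ℂ) (lam : Fin N → ℕ)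
    (t : ℝ) : Continuous (fun z => PPn n s lam t z) := by
  unfold PPn
  exact continuous_finset_sum _ (fun j _ => continuous_const.mul ((cont_ev (s j)).norm.pow 2))

theorem cont_PP {m N : ℕ} (s : Fin N → MvPolynomial (Fin m) ℂ) (lam : Fin N → ℕ)
    (t : ℝ) : Continuous (fun z => PP s lam t z) := by
  unfold PP
  exact continuous_finset_sum _ (fun j _ => continuous_const.mul ((cont_ev (s j)).norm.pow 2))

theorem PPn_nonneg {m N : ℕ} (n : ℕ) (s : Fin N → MvPolynomial (Fin m) ℂ) (lam : Fin N → ℕ)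
    (t : ℝ) (z : Fin m → ℂ) : 0 ≤ PPn n s lam t z := by
  unfold PPn
  exact Finset.sum_nonneg (fun j _ => by positivity)

theorem sz_nonneg (C : Cone) (z : Fin C.m → ℂ) : 0 ≤ C.sz z :=
  Finset.sum_nonneg (fun i _ => norm_nonneg _)

theorem PPn_le (C : Cone) (hC : Good C) (D N : ℕ)
    (s : Fin N → MvPolynomial (Fin C.m) ℂ) (lam : Fin N → ℕ)
    (hs : Submodule.span ℂ (Set.range s) = C.R D) (n : ℕ) (t : ℝ) :
    ∃ K : ℝ, 0 ≤ K ∧ ∀ z, PPn n s lam t z ≤ K * C.sz z ^ (2 * D) := by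
  have h1 : ∀ j, ∃ B : ℝ, ∀ z, ‖ev (s j) z‖ ≤ B * C.sz z ^ D := by
    intro j
    apply hC.bdd D
    rw [← hs]
    exact Submodule.subset_span ⟨j, rfl⟩
  choose B hB using h1
  refine ⟨∑ j, (lam j : ℝ) ^ n * Real.exp (t * lam j) * (B j) ^ 2,
    Finset.sum_nonneg (fun j _ => by positivity), ?_⟩
  intro z
  unfold PPn
  rw [Finset.sum_mul]
  apply Finset.sum_le_sum
  intro j _
  have h2 : ‖ev (s j) z‖ ^ 2 ≤ (B j * C.sz z ^ D) ^ 2 :=
    pow_le_pow_left₀ (norm_nonneg _) (hB j z) 2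
  calc (lam j : ℝ) ^ n * Real.exp (t * lam j) * ‖ev (s j) z‖ ^ 2
      ≤ (lam j : ℝ) ^ n * Real.exp (t * lam j) * (B j * C.sz z ^ D) ^ 2 :=
        mul_le_mul_of_nonneg_left h2 (by positivity)
    _ = (lam j : ℝ) ^ n * Real.exp (t * lam j) * B j ^ 2 * C.sz z ^ (2 * D) := by
        rw [mul_pow, ← pow_mul, mul_comm D 2]; ring

theorem intg (C : Cone) (hC : Good C) (D N : ℕ)
    (s : Fin N → MvPolynomial (Fin C.m) ℂ) (lam : Fin N → ℕ) (t : ℝ)
    (hI : ∀ q : ℕ, IntegrableOn (fun z => (1 + C.sz z ^ q) * Real.exp (-PP s lam t z) *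
      ‖ev C.J z‖ ^ 2) C.U) (F : (Fin C.m → ℂ) → ℝ) (hF : Continuous F) (h0 : ∀ z, 0 ≤ F z)
    (K : ℝ) (hK : 0 ≤ K) (q : ℕ) (hb : ∀ z, F z ≤ K * C.sz z ^ q) :
    IntegrableOn (fun z => F z * Real.exp (-PP s lam t z) * ‖ev C.J z‖ ^ 2) C.U := by
  have h1 := (hI q).const_mul K
  refine Integrable.mono' h1 ?_ ?_
  · exact ((hF.mul (Real.continuous_exp.comp (cont_PP s lam t).neg)).mul
      ((cont_ev C.J).norm.pow 2)).aestronglyMeasurable
  · filter_upwards with z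
    have hF0 := h0 z
    have he := Real.exp_pos (-PP s lam t z)
    rw [Real.norm_eq_abs, abs_of_nonneg (by positivity)]
    have hsz := sz_nonneg C z
    have h2 : F z ≤ K * (1 + C.sz z ^ q) := by
      have := hb z
      nlinarith
    calc F z * Real.exp (-PP s lam t z) * ‖ev C.J z‖ ^ 2
        ≤ (K * (1 + C.sz z ^ q)) * Real.exp (-PP s lam t z) * ‖ev C.J z‖ ^ 2 := by
          apply mul_le_mul_of_nonneg_right _ (by positivity)
          exact mul_le_mul_of_nonneg_right h2 he.le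
      _ = K * ((1 + C.sz z ^ q) * Real.exp (-PP s lam t z) * ‖ev C.J z‖ ^ 2) := by ring

theorem hCVX (hDIF : StDIF) (hVRP : StVRP) : StCVX := by
  intro C hC D N hD s lam hs
  have hdif := hDIF C hC D N hD s lam hs
  have hvrp := hVRP C hC D N hD s lam hs
  have hZ : ∀ t, 0 < C.ZZ s lam t := fun t => (hdif t).1
  have hd1 := fun t => (hdif t).2.2.1
  have hd2 := fun t => (hdif t).2.2.2
  set A1 : ℝ → ℝ := fun t => ∫ z in C.U, PPn 1 s lam t z * Real.exp (-PP s lam t z) *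
    ‖ev C.J z‖ ^ 2 with hA1
  set A2 : ℝ → ℝ := fun t => ∫ z in C.U, (PPn 2 s lam t z - PPn 1 s lam t z ^ 2) *
    Real.exp (-PP s lam t z) * ‖ev C.J z‖ ^ 2 with hA2
  have e1 : ∀ t, HasDerivAt (fun t => -Real.log (C.ZZ s lam t)) (A1 t / C.ZZ s lam t) t := by
    intro t
    have h := ((hd1 t).log (hZ t).ne').neg
    have h2 : A1 t / C.ZZ s lam t = -(-A1 t / C.ZZ s lam t) := by ring
    rw [h2]
    exact h
  have e2 : ∀ t, HasDerivAt (fun t => A1 t / C.ZZ s lam t)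
      ((A2 t * C.ZZ s lam t + A1 t ^ 2) / C.ZZ s lam t ^ 2) t := by
    intro t
    have h := (hd2 t).div (hd1 t) (hZ t).ne'
    have h2 : (A2 t * C.ZZ s lam t + A1 t ^ 2) / C.ZZ s lam t ^ 2 =
        (A2 t * C.ZZ s lam t - A1 t * (-A1 t)) / C.ZZ s lam t ^ 2 := by ring
    rw [h2]
    exact h
  have e3 : ∀ t, 0 ≤ (A2 t * C.ZZ s lam t + A1 t ^ 2) / C.ZZ s lam t ^ 2 := by
    intro t
    apply div_nonneg _ (sq_nonneg _)
    obtain ⟨K2, hK2, hb2⟩ := PPn_le C hC D N s lam hs 2 t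
    obtain ⟨K1, hK1, hb1⟩ := PPn_le C hC D N s lam hs 1 t
    have i2 := intg C hC D N s lam t (hdif t).2.1 (fun z => PPn 2 s lam t z)
      (cont_PPn 2 s lam t) (PPn_nonneg 2 s lam t) K2 hK2 (2 * D) hb2
    have i1 := intg C hC D N s lam t (hdif t).2.1 (fun z => PPn 1 s lam t z ^ 2)
      ((cont_PPn 1 s lam t).pow 2) (fun z => sq_nonneg _) (K1 ^ 2) (sq_nonneg _) (2 * D * 2)
      (fun z => by
        have h := pow_le_pow_left₀ (PPn_nonneg 1 s lam t z) (hb1 z) 2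
        rw [mul_pow, ← pow_mul] at h
        exact h)
    have hsplit : A2 t = (∫ z in C.U, PPn 2 s lam t z * Real.exp (-PP s lam t z) *
        ‖ev C.J z‖ ^ 2) - ∫ z in C.U, PPn 1 s lam t z ^ 2 * Real.exp (-PP s lam t z) *
        ‖ev C.J z‖ ^ 2 := by
      rw [← integral_sub i2 i1]
      change (∫ z in C.U, (PPn 2 s lam t z - PPn 1 s lam t z ^ 2) *
        Real.exp (-PP s lam t z) * ‖ev C.J z‖ ^ 2) = _
      congr 1
      funext z
      ring
    have hv := hvrp t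
    rw [hsplit]
    change 0 ≤ _ * C.ZZ s lam t + (∫ z in C.U, PPn 1 s lam t z * Real.exp (-PP s lam t z) *
      ‖ev C.J z‖ ^ 2) ^ 2
    nlinarith [hv]
  apply convexOn_of_hasDerivWithinAt2_nonneg (f' := fun t => A1 t / C.ZZ s lam t)
    (f'' := fun t => (A2 t * C.ZZ s lam t + A1 t ^ 2) / C.ZZ s lam t ^ 2) convex_univ
  · exact fun t _ => (e1 t).continuousAt.continuousWithinAt
  · exact fun t _ => (e1 t).hasDerivWithinAt
  · exact fun t _ => (e2 t).hasDerivWithinAt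
  · exact fun t _ => e3 t

end Pool.Agent.Helper26.KP
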