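import Pool.Agent.Helper68.KP.StR

/-!
Project KP (MP_26be5b_ag): integer weights.
-/

set_option autoImplicit false

namespace Pool.Agent.Helper26.KP

open Pool.Agent.Helper68.KP
open Pool.Agent.Helper52.KP Filter Topology

section

variable {A : Type} [CommRing A] [Algebra ℂ A] {E : ℕ → Submodule ℂ A}

theorem castW (W : ∀ k, E k →ₗ[ℂ] E k) (k k' : ℕ) (h : k = k') (f : E k) (g : E k')
    (h2 : (f : A) = (g : A)) : (W k f : A) = (W k' g : A) := by
  subst h
  have : f = g := Subtype.ext h2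
  rw [this]

theorem mem_GW (W : ∀ k, E k →ₗ[ℂ] E k) (k : ℕ) (y : ℝ) (e : E k) (w : ℝ) (hy : y ≤ w)
    (he : W k e = (w : ℂ) • e) : (e : A) ∈ GW W k y :=
  Submodule.subset_span ⟨e, w, hy, he, rfl⟩

theorem GW_le (W : ∀ k, E k →ₗ[ℂ] E k) (k : ℕ) (y w : ℝ) (e : E k) (h0 : e ≠ 0)
    (he : W k e = (w : ℂ) • e) (hm : (e : A) ∈ GW W k y) : y ≤ w := by
  by_contra hlt
  push Not at hlt
  have hind := Module.End.eigenspaces_iSupIndep (W k)
  have hdis := hind (w : ℂ)
  have h1 : e ∈ Module.End.eigenspace (W k) (w : ℂ) := Module.End.mem_eigenspace_iff.mpr he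
  have h2 : GW W k y ≤ Submodule.map (E k).subtype
      (⨆ (μ : ℂ) (_ : μ ≠ (w : ℂ)), Module.End.eigenspace (W k) μ) := by
    unfold GW
    rw [Submodule.span_le]
    rintro f ⟨e', w', hw', he', rfl⟩
    refine ⟨e', ?_, rfl⟩
    have hne : (w' : ℂ) ≠ (w : ℂ) := by
      intro h
      have : w' = w := by exact_mod_cast h
      linarith
    exact (le_iSup₂ (f := fun (μ : ℂ) (_ : μ ≠ (w : ℂ)) => Module.End.eigenspace (W k) μ)
      (w' : ℂ) hne) (Module.End.mem_eigenspace_iff.mpr he')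
  obtain ⟨e'', he'', hee⟩ := h2 hm
  have h3 : e'' = e := Subtype.ext hee
  rw [h3] at he''
  have h4 := Submodule.disjoint_def.mp hdis e h1 he''
  exact h0 h4

theorem pow_eig (W : ∀ k, E k →ₗ[ℂ] E k)
    (hmul : ∀ k k' f f', f ∈ E k → f' ∈ E k' → f * f' ∈ E (k + k')) (hD : DD E W)
    (k : ℕ) (e : E k) (w : ℝ) (he : W k e = (w : ℂ) • e) (j : ℕ) :
    ∃ f : E ((j + 1) * k), (f : A) = (e : A) ^ (j + 1) ∧
      (W ((j + 1) * k) f : A) = (((j + 1 : ℕ) : ℂ) * (w : ℂ)) • (e : A) ^ (j + 1) := by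
  induction j with
  | zero =>
    have h1 : (0 + 1) * k = k := by simp
    have hm : (e : A) ∈ E ((0 + 1) * k) := by rw [h1]; exact e.2
    refine ⟨⟨(e : A), hm⟩, by simp, ?_⟩
    rw [castW W _ k h1 ⟨(e : A), hm⟩ e rfl, he]
    simp
  | succ j ih =>
    obtain ⟨f, hf, hWf⟩ := ih
    have h1 : (j + 1) * k + k = (j + 1 + 1) * k := by ring
    have hm : (f : A) * (e : A) ∈ E ((j + 1) * k + k) := hmul _ _ _ _ f.2 e.2
    have hm' : (f : A) * (e : A) ∈ E ((j + 1 + 1) * k) := by rw [← h1]; exact hm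
    refine ⟨⟨(f : A) * (e : A), hm'⟩, ?_, ?_⟩
    · change (f : A) * (e : A) = _
      rw [hf]
      exact (pow_succ _ _).symm
    · rw [← castW W _ _ h1 ⟨(f : A) * (e : A), hm⟩ ⟨(f : A) * (e : A), hm'⟩ rfl]
      rw [hD ((j + 1) * k) k f e ⟨(f : A) * (e : A), hm⟩ rfl, hWf, he, hf]
      rw [Submodule.coe_smul, smul_mul_assoc, mul_smul_comm, ← pow_succ, ← add_smul]
      congr 1
      push_cast
      ring

theorem int_weight (ip : A → A → ℂ) (F : ℕ → ℕ → Submodule ℂ A)
    (W : ∀ k, E k →ₗ[ℂ] E k)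
    (hmul : ∀ k k' f f', f ∈ E k → f' ∈ E k' → f * f' ∈ E (k + k')) (hD : DD E W)
    (hF : ∀ k l, F k l = GW W k l) (hF0 : ∀ k, F k 0 = E k)
    (hrad : ∀ k l j f, 0 < j → f ∈ F k l → f ^ j ∈ F (j * k) (j * l + 1) → f ∈ F k (l + 1))
    (k : ℕ) (e : E k) (h0 : e ≠ 0) (w : ℝ) (he : W k e = (w : ℂ) • e) :
    ∃ j : ℕ, w = j := by
  have hw0 : 0 ≤ w := by
    have h := GW_le W k 0 w e h0 he (by
      have h2 : (e : A) ∈ F k 0 := (hF0 k).symm ▸ e.2
      rw [hF k 0] at h2
      simpa using h2)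
    exact h
  by_contra hno
  push Not at hno
  set l := ⌊w⌋₊ with hl
  have hl1 : (l : ℝ) ≤ w := Nat.floor_le hw0
  have hl2 : w < (l : ℝ) + 1 := Nat.lt_floor_add_one w
  have hl3 : (l : ℝ) < w := lt_of_le_of_ne hl1 (fun h => hno l h.symm)
  obtain ⟨n, hn⟩ := exists_nat_ge (1 / (w - l))
  have hd : 0 < w - l := by linarith
  have hn2 : (l : ℝ) * (n + 1) + 1 ≤ (n + 1) * w := by
    have h1 : 1 ≤ n * (w - l) := by
      rw [div_le_iff₀ hd] at hn
      linarith
    nlinarith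
  have hmem : (e : A) ∈ F k l := by
    rw [hF]
    exact mem_GW W k l e w hl1 he
  obtain ⟨f, hf, hWf⟩ := pow_eig W hmul hD k e w he n
  have hpow : (e : A) ^ (n + 1) ∈ F ((n + 1) * k) ((n + 1) * l + 1) := by
    rw [hF, ← hf]
    apply mem_GW W _ _ f ((n + 1) * w)
    · push_cast
      nlinarith
    · apply Subtype.ext
      rw [hWf, Submodule.coe_smul, hf]
      push_cast
      rfl
  have hfin := hrad k l (n + 1) e (Nat.succ_pos n) hmem hpow
  rw [hF] at hfin
  have := GW_le W k _ w e h0 he hfin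
  push_cast at this
  linarith

end

theorem hINT : StINT := by
  intro A _ _ _ E ip M F hSG hHF W hD hSA hF hF0 hrad
  have hint := int_weight ip F W hSG.mul hD hF hF0 hrad
  let G : ℕ → ℕ → Submodule ℂ A := fun k j =>
    Submodule.map (E k).subtype (Module.End.eigenspace (W k) (j : ℂ))
  have hGm : ∀ (k j : ℕ) (e : E k), W k e = (j : ℂ) • e → (e : A) ∈ G k j := fun k j e he =>
    ⟨e, Module.End.mem_eigenspace_iff.mpr he, rfl⟩
  have hGF : ∀ k l, F k l = ⨆ (j : ℕ) (_ : l ≤ j), G k j := by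
    intro k l
    apply le_antisymm
    · rw [hF]
      unfold GW
      rw [Submodule.span_le]
      rintro f ⟨e, w, hw, he, rfl⟩
      by_cases h0 : e = 0
      · rw [h0]
        exact Submodule.zero_mem _
      · obtain ⟨j, hj⟩ := hint k e h0 w he
        have hlj : l ≤ j := by
          rw [hj] at hw
          exact_mod_cast hw
        apply (le_iSup₂ (f := fun (j : ℕ) (_ : l ≤ j) => G k j) j hlj)
        apply hGm
        rw [he, hj]
        push_cast
        rfl
    · apply iSup₂_le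
      rintro j hj f ⟨e, he, rfl⟩
      have he' := Module.End.mem_eigenspace_iff.mp he
      rw [hF]
      apply mem_GW W k l e j (by exact_mod_cast hj)
      rw [he']
      push_cast
      rfl
  refine ⟨G, ?_, ?_, ?_, hGF⟩
  · intro k
    have h1 := (Module.End.eigenspaces_iSupIndep (W k)).comp
      (f := fun j : ℕ => (j : ℂ)) Nat.cast_injective
    exact LinearMap.iSupIndep_map (E k).subtype (Submodule.injective_subtype _) h1
  · intro k
    rw [← hF0 k, hGF k 0]
    simp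
  · rintro k j k' j' f f' ⟨e, he, rfl⟩ ⟨e', he', rfl⟩
    have h1 := Module.End.mem_eigenspace_iff.mp he
    have h2 := Module.End.mem_eigenspace_iff.mp he'
    have hm : (e : A) * (e' : A) ∈ E (k + k') := hSG.mul _ _ _ _ e.2 e'.2
    have h3 := hGm (k + k') (j + j') ⟨(e : A) * (e' : A), hm⟩ (by
      apply Subtype.ext
      rw [hD k k' e e' ⟨(e : A) * (e' : A), hm⟩ rfl, h1, h2]
      rw [Submodule.coe_smul, Submodule.coe_smul, Submodule.coe_smul, smul_mul_assoc,
        mul_smul_comm, ← add_smul]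
      push_cast
      try rfl)
    exact h3

end Pool.Agent.Helper26.KP
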